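import Mathlib
import Pool.Agent.H25.TChar

set_option autoImplicit false

namespace Pool.Agent.Results.MP_67c2f3_gt.No

open Set Filter Topology Pool.Agent.H25.TChar

/-- An open, finite-index, autocharacterized topological direct summand that is not
T-characterized. -/
theorem result : ∃ (X : Type) (_ : AddCommGroup X) (_ : TopologicalSpace X),
    IsTopologicalAddGroup X ∧ ∃ H : AddSubgroup X, IsOpen (H : Set X) ∧ H.FiniteIndex ∧
      (∃ u : ℕ → Dual H, (¬ ∀ᶠ n in atTop, u n = 0) ∧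
        ∀ y, Tendsto (fun n => u n y) atTop (𝓝 0)) ∧
      (∃ Z : AddSubgroup X, IsHomeomorph fun p : H × Z => p.1.1 + p.2.1) ∧ ¬ TCh H := by
  let _ : TopologicalSpace (ℕ →₀ ZMod 2) := ⊥
  have : DiscreteTopology (ℕ →₀ ZMod 2) := ⟨rfl⟩
  let H := (AddMonoidHom.fst (ZMod 3) (ℕ →₀ ZMod 2)).ker
  refine ⟨ZMod 3 × (ℕ →₀ ZMod 2), inferInstance, inferInstance, inferInstance, H,
    isOpen_discrete _, inferInstance,
    ⟨fun n => ⟨ZMod.toAddCircle.comp ((Finsupp.applyAddHom n).comp ((AddMonoidHom.snd _ _).comp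
      H.subtype)), continuous_of_discreteTopology⟩, fun h => ?_, fun y => (lim 0 _ (ev y.1.2)).1 rfl⟩,
    ⟨(AddMonoidHom.snd (ZMod 3) (ℕ →₀ ZMod 2)).ker, continuous_of_discreteTopology, fun _ _ => isOpen_discrete _,
      ?_, fun x => ⟨(⟨(0, x.2), rfl⟩, ⟨(x.1, 0), rfl⟩), by simp⟩⟩,
    neg H (1, 0) 3 three_pos (Prod.ext (by decide) (by simp)) (fun y hy => Prod.ext
      (by simp [show y.1 = 0 from hy]) (by ext; simp [two_smul, CharTwo.add_self_eq_zero]))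
      (fun x => ⟨x.1.val, show x.1 - x.1.val • 1 = 0 by simp⟩) fun h => absurd h (by decide : ¬ 2 • (1 : ZMod 3) = 0)⟩
  · obtain ⟨n, hn⟩ := h.exists
    have : ZMod.toAddCircle (Finsupp.single n (1 : ZMod 2) n) = 0 :=
      congrArg (fun χ : Dual H => χ ⟨(0, Finsupp.single n 1), rfl⟩) hn
    simp at this
  · rintro ⟨⟨⟨a, b⟩, rfl : a = 0⟩, ⟨⟨c, d⟩, rfl : d = 0⟩⟩
      ⟨⟨⟨a', b'⟩, rfl : a' = 0⟩, ⟨⟨c', d'⟩, rfl : d' = 0⟩⟩ h
    simpa [and_comm] using h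

end Pool.Agent.Results.MP_67c2f3_gt.No
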